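import Mathlib

set_option autoImplicit false
open MeasureTheory Set Filter Topology

namespace Pool.Agent.V8H60.Radial

/-- A real function of bounded variation on `[0,1)` has an integrable derivative on `(0,1)`. -/
lemma real_bv {h : ℝ → ℝ} (hb : eVariationOn h (Ico (0:ℝ) 1) ≠ ⊤) :
    ∫⁻ r in Ioo (0:ℝ) 1, ‖deriv h r‖ₑ < ⊤ := by
  have hb' : BoundedVariationOn h (Ico (0:ℝ) 1) := hb
  obtain ⟨l, hl⟩ := hb'.exists_tendsto_left 1
  have e1 : Ico (0:ℝ) 1 ∩ Iio 1 = Ico (0:ℝ) 1 := by
    ext x; simp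
  rw [e1, nhdsWithin_Ico_eq_nhdsLT (by norm_num : (0:ℝ) < 1)] at hl
  set k : ℝ → ℝ := Function.update h 1 l with hk
  have hkeq : EqOn k h (Ico (0:ℝ) 1) := fun x hx => by
    simp only [hk]
    rw [Function.update_of_ne (ne_of_lt hx.2)]
  have hkc : ContinuousWithinAt k (Iic (1:ℝ)) 1 := by
    rw [← Iio_union_right (a := (1:ℝ)), continuousWithinAt_union]
    constructor
    · have : Tendsto k (𝓝[<] 1) (𝓝 l) := by
        refine hl.congr' ?_
        filter_upwards [self_mem_nhdsWithin] with x hx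
        simp only [hk]
        rw [Function.update_of_ne (ne_of_lt hx)]
      have e2 : k 1 = l := by simp [hk]
      unfold ContinuousWithinAt
      rw [e2]
      exact this
    · exact continuousWithinAt_singleton
  have hkv : BoundedVariationOn k (uIcc (0:ℝ) 1) := by
    rw [uIcc_of_le (by norm_num : (0:ℝ) ≤ 1)]
    unfold BoundedVariationOn
    rw [← eVariationOn.eVariationOn_Ico_eq_Icc_of_continuousWithinAt hkc,
      eVariationOn.eq_of_eqOn hkeq]
    exact hb
  have hint := hkv.intervalIntegrable_deriv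
  rw [intervalIntegrable_iff_integrableOn_Ioo_of_le (by norm_num)] at hint
  have h3 := hint.2
  unfold HasFiniteIntegral at h3
  refine lt_of_eq_of_lt ?_ h3
  apply setLIntegral_congr_fun measurableSet_Ioo
  intro x hx
  have : deriv h x = deriv k x := by
    apply Filter.EventuallyEq.deriv_eq
    filter_upwards [Ioo_mem_nhds hx.1 hx.2] with y hy
    exact (hkeq ⟨hy.1.le, hy.2⟩).symm
  simp only [this]

/-- If the length integral of the image of the open interval is infinite then so is the variation. -/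
lemma complex_bv {g : ℝ → ℂ} (hd : ∀ r ∈ Ioo (0:ℝ) 1, DifferentiableAt ℝ g r)
    (ht : ∫⁻ r in Ioo (0:ℝ) 1, ‖deriv g r‖ₑ = ⊤) : eVariationOn g (Ico (0:ℝ) 1) = ⊤ := by
  by_contra hne
  have h1 : LipschitzWith 1 Complex.re := by
    apply LipschitzWith.of_dist_le_mul
    intro x y
    rw [Real.dist_eq, Complex.dist_eq, NNReal.coe_one, one_mul, ← Complex.sub_re]
    exact Complex.abs_re_le_norm _
  have h2 : LipschitzWith 1 Complex.im := by
    apply LipschitzWith.of_dist_le_mul
    intro x y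
    rw [Real.dist_eq, Complex.dist_eq, NNReal.coe_one, one_mul, ← Complex.sub_im]
    exact Complex.abs_im_le_norm _
  have b1 := real_bv (h1.comp_boundedVariationOn (s := Ico (0:ℝ) 1) (g := g) hne)
  have b2 := real_bv (h2.comp_boundedVariationOn (s := Ico (0:ℝ) 1) (g := g) hne)
  have key : ∫⁻ r in Ioo (0:ℝ) 1, ‖deriv g r‖ₑ ≤
      ∫⁻ r in Ioo (0:ℝ) 1, (‖deriv (Complex.re ∘ g) r‖ₑ + ‖deriv (Complex.im ∘ g) r‖ₑ) := by
    apply setLIntegral_mono' measurableSet_Ioo
    intro r hr
    have hg := (hd r hr).hasDerivAt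
    have hre : HasDerivAt (Complex.re ∘ g) (deriv g r).re r :=
      (Complex.reCLM.hasFDerivAt (x := g r)).comp_hasDerivAt r hg
    have him : HasDerivAt (Complex.im ∘ g) (deriv g r).im r :=
      (Complex.imCLM.hasFDerivAt (x := g r)).comp_hasDerivAt r hg
    rw [hre.deriv, him.deriv]
    have : ‖deriv g r‖ ≤ ‖(deriv g r).re‖ + ‖(deriv g r).im‖ := by
      rw [Real.norm_eq_abs, Real.norm_eq_abs]
      exact Complex.norm_le_abs_re_add_abs_im _
    calc ‖deriv g r‖ₑ = ENNReal.ofReal ‖deriv g r‖ := (ofReal_norm _).symm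
      _ ≤ ENNReal.ofReal (‖(deriv g r).re‖ + ‖(deriv g r).im‖) := ENNReal.ofReal_le_ofReal this
      _ = ‖(deriv g r).re‖ₑ + ‖(deriv g r).im‖ₑ := by
        rw [ENNReal.ofReal_add (norm_nonneg _) (norm_nonneg _), ofReal_norm, ofReal_norm]
  rw [ht, lintegral_add_left (measurable_deriv _).enorm] at key
  have := ENNReal.add_lt_top.2 ⟨b1, b2⟩
  exact absurd (lt_of_le_of_lt key this) (lt_irrefl _)

end Pool.Agent.V8H60.Radial
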